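import Pool.Agent.Results.MP_a7ce8b_al.NoHighlyTransitive

/-! Full powers, restricted powers and Boolean powers are closed under patching. -/

namespace Pool.Agent.Lib.MP_a7ce8b_al.HT

/-- The case of the full power. -/
theorem full_power (G Ω ι Y : Type*) [Group G] [MulAction G Ω] [Countable Y] [Infinite Y]
    (e : Ω ≃ (ι → Y)) (i : ι) (hlf : IsLocallyFinite G)
    (hwr : ∀ g : G, ∃ (σ : Equiv.Perm ι) (a : ι → Equiv.Perm Y),
      ∀ ω j, e (g • ω) (σ j) = a j (e ω j))
    (hht : ∀ (n : ℕ) (u v : Fin n ↪ Y), ∃ (g : G) (a : Equiv.Perm Y),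
      (∀ ω, e (g • ω) i = a (e ω i)) ∧ ∀ k, a (u k) = v k) :
    ¬ Star G Ω := by
  classical
  obtain ⟨p, q, hpq⟩ := exists_pair_ne Y
  refine Pool.Agent.Results.MP_a7ce8b_al.NoHighlyTransitive.result G Ω ι Y e.toEmbedding i
    (fun a b c d => ⟨e.symm fun j => if e a j = e b j then e c j else e d j, fun j => ?_⟩)
    (fun j hj => ⟨e.symm fun _ => p, e.symm (Function.update (fun _ => p) i q), ?_, ?_⟩)
    hlf hwr hht
  · constructor <;> intro h <;> simp only [Equiv.coe_toEmbedding] at h ⊢ <;> simp [h]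
  · simp [hj]
  · simpa using hpq

/-- Functions that agree with a base point off a finite set. -/
theorem restricted {ι Y : Type*} [Nontrivial Y] (β : ι → Y) (i : ι) :
    (∀ a b c d : {ω : ι → Y // {j | ω j ≠ β j}.Finite},
      ∃ x : {ω : ι → Y // {j | ω j ≠ β j}.Finite},
        ∀ j, (a.1 j = b.1 j → x.1 j = c.1 j) ∧ (a.1 j ≠ b.1 j → x.1 j = d.1 j)) ∧
    ∀ j, j ≠ i → ∃ a b : {ω : ι → Y // {j | ω j ≠ β j}.Finite},
      a.1 j = b.1 j ∧ a.1 i ≠ b.1 i := by
  classical
  refine ⟨fun a b c d => ⟨⟨fun j => if a.1 j = b.1 j then c.1 j else d.1 j,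
    (c.2.union d.2).subset fun j hj => ?_⟩, fun j => ⟨fun h => if_pos h, fun h => if_neg h⟩⟩,
    fun j hj => ?_⟩
  · by_cases h : a.1 j = b.1 j
    · exact Or.inl (by simpa [h] using hj)
    · exact Or.inr (by simpa [h] using hj)
  · obtain ⟨y, hy⟩ := exists_ne (β i)
    refine ⟨⟨Function.update β i y, (Set.finite_singleton i).subset fun k hk => ?_⟩, ⟨β, by simp⟩,
      by simp [hj], by simpa using hy⟩
    by_contra c
    exact hk (Function.update_of_ne c _ _)

/-- Locally constant functions on a totally separated space. -/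
theorem boolean {Z Y : Type*} [TopologicalSpace Z] [TotallySeparatedSpace Z] [Nontrivial Y]
    (i : Z) :
    (∀ a b c d : LocallyConstant Z Y, ∃ x : LocallyConstant Z Y,
      ∀ j, (a j = b j → x j = c j) ∧ (a j ≠ b j → x j = d j)) ∧
    ∀ j, j ≠ i → ∃ a b : LocallyConstant Z Y, a j = b j ∧ a i ≠ b i := by
  classical
  refine ⟨fun a b c d => ⟨⟨fun j => if a j = b j then c j else d j,
    (((a.2.prodMk b.2).prodMk (c.2.prodMk d.2)).comp
      fun w : (Y × Y) × Y × Y => if w.1.1 = w.1.2 then w.2.1 else w.2.2)⟩,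
    fun j => ⟨fun h => if_pos h, fun h => if_neg h⟩⟩, fun j hj => ?_⟩
  obtain ⟨p, q, hpq⟩ := exists_pair_ne Y
  obtain ⟨U, hU, h1, h2⟩ := exists_isClopen_of_totally_separated hj
  refine ⟨LocallyConstant.const Z p, (LocallyConstant.ofIsClopen hU).map ![p, q], ?_, ?_⟩
  · simp [LocallyConstant.ofIsClopen, h1]
  · simpa [LocallyConstant.ofIsClopen, show i ∉ U from h2] using hpq

end Pool.Agent.Lib.MP_a7ce8b_al.HT
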