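import Pool.Agent.Lib.MP_a7ce8b_al.HT.Match

/-! A highly transitive locally finite group of countable degree has a 2-subgroup that is not
centralised by an element with exactly one fixed point. -/

namespace Pool.Agent.Lib.MP_a7ce8b_al.HT

open MulAction

variable {G Y : Type*} [Group G] [MulAction G Y]

/-- Every matched point is moved by an element fixing all matched points outside its pair. -/
def Full (τ : St G Y) : Prop :=
  ∀ y ∈ τ.A, ∃ q ∈ τ.F, q • y ≠ y ∧ ∀ x ∈ τ.A, x ≠ y → x ≠ τ.z y → q • x = x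

/-- The elements that permute the pairs of the matching like an element of `σ.F`. -/
def St.big (σ : St G Y) : Subgroup G where
  carrier := {k | (∀ x, k • x ∈ σ.A ↔ x ∈ σ.A) ∧ (∀ x ∈ σ.A, σ.z (k • x) = k • σ.z x) ∧
    ∃ f ∈ σ.F, ∀ x ∈ σ.A, k • x = f • x ∨ k • x = σ.z (f • x)}
  one_mem' := ⟨by simp, by simp, 1, σ.F.one_mem, fun _ _ => Or.inl rfl⟩
  mul_mem' := by
    rintro k l ⟨a1, a2, f, hf, a3⟩ ⟨b1, b2, g, hg, b3⟩
    refine ⟨fun x => by rw [mul_smul, a1, b1], fun x hx => by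
      rw [mul_smul, mul_smul, a2 _ ((b1 x).2 hx), b2 x hx], f * g, σ.F.mul_mem hf hg,
      fun x hx => ?_⟩
    have hgx := σ.fA g hg x hx
    rw [mul_smul, mul_smul]
    rcases b3 x hx with h | h <;> rw [h]
    · exact a3 _ hgx
    · rw [← a2 _ hgx]
      rcases a3 _ hgx with h' | h' <;> rw [h']
      · exact Or.inr rfl
      · exact Or.inl (σ.zz _ (σ.fA f hf _ hgx))
  inv_mem' := by
    rintro k ⟨a1, a2, f, hf, a3⟩
    have b1 : ∀ x, k⁻¹ • x ∈ σ.A ↔ x ∈ σ.A := fun x => by rw [← a1, smul_inv_smul]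
    refine ⟨b1, fun x hx => by
      rw [eq_inv_smul_iff, ← a2 _ ((b1 x).2 hx), smul_inv_smul], f⁻¹, σ.F.inv_mem hf,
      fun x hx => ?_⟩
    have hw := (b1 x).2 hx
    rcases a3 _ hw with h | h <;> rw [smul_inv_smul] at h
    · exact Or.inl (by rw [eq_inv_smul_iff]; exact h.symm)
    · rw [σ.fz f hf _ hw, ← inv_smul_eq_iff] at h
      exact Or.inr (by rw [h, σ.zz _ hw])

theorem St.le_big (σ : St G Y) : σ.F ≤ σ.big := fun f hf =>
  ⟨fun x => ⟨fun h => by_contra fun hx => σ.notMem hf hx h, σ.fA f hf x⟩, σ.fz f hf, f, hf,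
    fun _ _ => Or.inl rfl⟩

theorem St.big_pow (σ : St G Y) {k : G} (hk : k ∈ σ.big) :
    ∃ n : ℕ, ∀ x ∈ σ.A, k ^ 2 ^ n • x = x := by
  obtain ⟨a1, a2, f, hf, a3⟩ := id hk
  have h1 : ∀ n : ℕ, ∀ x ∈ σ.A, k ^ n • x = f ^ n • x ∨ k ^ n • x = σ.z (f ^ n • x) := by
    intro n x hx
    induction n with
    | zero => exact Or.inl (by simp)
    | succ n ih =>
      have hfx := σ.fA _ (σ.F.pow_mem hf n) x hx
      rw [pow_succ', pow_succ', mul_smul, mul_smul]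
      rcases ih with h | h <;> rw [h]
      · exact a3 _ hfx
      · rw [← a2 _ hfx]
        rcases a3 _ hfx with h' | h' <;> rw [h']
        · exact Or.inr rfl
        · exact Or.inl (σ.zz _ (σ.fA f hf _ hfx))
  obtain ⟨n, hn⟩ := σ.two ⟨f, hf⟩
  have hn' : f ^ 2 ^ n = 1 := congrArg Subtype.val hn
  refine ⟨n + 1, fun x hx => ?_⟩
  have h2 := h1 (2 ^ n) x hx
  rw [hn', one_smul] at h2
  rw [pow_succ, pow_mul, sq, mul_smul]
  rcases h2 with h | h
  · rw [h, h]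
  · rw [h, ← (σ.big.pow_mem hk (2 ^ n)).2.1 x hx, h, σ.zz x hx]

theorem St.grow (hlf : IsLocallyFinite G)
    (hht : ∀ A : Set Y, A.Finite → ∀ π : Equiv.Perm Y, ∃ g : G, ∀ x ∈ A, g • x = π x)
    (σ : St G Y) : ∃ τ : St G Y, σ.Le τ ∧ Full τ := by
  classical
  have : Fact (Nat.Prime 2) := ⟨Nat.prime_two⟩
  choose g hg using fun y => hht σ.A σ.finA (Equiv.swap y (σ.z y))
  have hgA : ∀ y ∈ σ.A, ∀ x ∈ σ.A, Equiv.swap y (σ.z y) x ∈ σ.A := fun y hy x hx => by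
    rw [Equiv.swap_apply_def]
    split_ifs
    exacts [σ.zA y hy, hy, hx]
  have hgb : ∀ y ∈ σ.A, g y ∈ σ.big := fun y hy => by
    refine ⟨fun x => ⟨fun h => ?_, fun h => hg y x h ▸ hgA y hy x h⟩, fun x hx => ?_, 1,
      σ.F.one_mem, fun x hx => ?_⟩
    · have h1 := hgA y hy _ h
      have h2 := hg y _ h1
      rw [Equiv.swap_apply_self] at h2
      exact smul_left_cancel _ h2 ▸ h1
    · rw [hg y x hx, hg y _ (σ.zA x hx)]
      by_cases h1 : x = y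
      · rw [h1, Equiv.swap_apply_left, Equiv.swap_apply_right, σ.zz y hy]
      by_cases h2 : x = σ.z y
      · rw [h2, Equiv.swap_apply_right, σ.zz y hy, Equiv.swap_apply_left]
      rw [Equiv.swap_apply_of_ne_of_ne h1 h2, Equiv.swap_apply_of_ne_of_ne
        (fun h => h2 (by rw [← h, σ.zz x hx])) fun h => h1 (by rw [← σ.zz x hx, h, σ.zz y hy])]
    · rw [hg y x hx, one_smul]
      by_cases h1 : x = y
      · exact Or.inr (by rw [h1, Equiv.swap_apply_left])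
      by_cases h2 : x = σ.z y
      · exact Or.inr (by rw [h2, Equiv.swap_apply_right, σ.zz y hy])
      exact Or.inl (Equiv.swap_apply_of_ne_of_ne h1 h2)
  have := σ.fin
  have hK := fin_closure hlf ((Set.toFinite (σ.F : Set G)).union (σ.finA.image g))
  set K := Subgroup.closure ((σ.F : Set G) ∪ g '' σ.A)
  have hFK : σ.F ≤ K := fun f hf => Subgroup.subset_closure (Or.inl hf)
  have hKb : K ≤ σ.big := (Subgroup.closure_le _).2 (by
    rintro _ (h | ⟨y, hy, rfl⟩)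
    exacts [σ.le_big h, hgb y hy])
  let N : Subgroup K :=
    { carrier := {k | ∀ x ∈ σ.A, (k : G) • x = x}
      one_mem' := fun x _ => one_smul _ x
      mul_mem' := fun {a b} ha hb x hx => by
        rw [Subgroup.coe_mul, mul_smul, hb x hx, ha x hx]
      inv_mem' := fun {a} ha x hx => by rw [Subgroup.coe_inv, inv_smul_eq_iff, ha x hx] }
  have hN : N.Normal := ⟨fun n hn k x hx => by
    rw [Subgroup.coe_mul, Subgroup.coe_mul, mul_smul, mul_smul,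
      hn _ (((hKb (k⁻¹).2).1 x).2 hx), Subgroup.coe_inv, smul_inv_smul]⟩
  have hq : IsPGroup 2 (K ⧸ N) := fun q => by
    obtain ⟨k, rfl⟩ := QuotientGroup.mk_surjective q
    obtain ⟨n, hn⟩ := σ.big_pow (hKb k.2)
    exact ⟨n, by rw [← QuotientGroup.mk_pow, QuotientGroup.eq_one_iff]; exact hn⟩
  obtain ⟨Q, hQ⟩ := (σ.two.comap_subtype (K := K)).exists_le_sylow
  have htop : (Q : Subgroup K) ⊔ N = ⊤ := by
    obtain ⟨n, hn⟩ := IsPGroup.iff_card.1 hq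
    have h1 : ((Q : Subgroup K) ⊔ N).index ∣ 2 ^ n :=
      hn ▸ Subgroup.index_dvd_of_le (le_sup_right : N ≤ (Q : Subgroup K) ⊔ N)
    obtain ⟨i, -, hi⟩ := (Nat.dvd_prime_pow Nat.prime_two).1 h1
    rcases i with _ | i
    · exact Subgroup.index_eq_one.1 hi
    · exact absurd ((Dvd.intro_left _ (hi.trans (pow_succ 2 i)).symm).trans
        (Subgroup.index_dvd_of_le le_sup_left)) Q.not_dvd_index
  have hQb : (Q : Subgroup K).map K.subtype ≤ σ.big := (Subgroup.map_subtype_le _).trans hKb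
  refine ⟨⟨(Q : Subgroup K).map K.subtype, σ.A, σ.z,
    Finite.of_surjective _ (K.subtype.subgroupMap_surjective Q), Q.isPGroup'.map _, σ.finA, σ.zA,
    σ.zz, σ.zne, fun f hf x hx => ((hQb hf).1 x).2 hx, fun f hf => (hQb hf).2.1⟩,
    ⟨fun f hf => ⟨⟨f, hFK hf⟩, hQ hf, rfl⟩, subset_rfl, fun _ _ => rfl⟩, fun y hy => ?_⟩
  have h1 : (⟨g y, Subgroup.subset_closure (Or.inr ⟨y, hy, rfl⟩)⟩ : K) ∈
      ((Q : Subgroup K) ⊔ N : Subgroup K) := htop ▸ Subgroup.mem_top _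
  obtain ⟨q, hq1, n, hn, h2⟩ := Subgroup.mem_sup_of_normal_right.1 h1
  have h3 : ∀ x ∈ σ.A, (q : G) • x = Equiv.swap y (σ.z y) x := fun x hx => by
    have h4 : (q : G) * n = g y := congrArg Subtype.val h2
    rw [← hg y x hx, ← h4, mul_smul, hn x hx]
  refine ⟨q, ⟨q, hq1, rfl⟩, ?_, fun x hx a b => ?_⟩
  · rw [h3 y hy, Equiv.swap_apply_left]; exact σ.zne y hy
  · rw [h3 x hx, Equiv.swap_apply_of_ne_of_ne a b]

theorem force {σ : ℕ → St G Y} {f : ℕ → Y} (hf : Function.Surjective f)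
    (h1 : ∀ i, (σ i).Le (σ (i + 1))) (h2 : ∀ i, Full (σ (i + 1)))
    (h3 : ∀ i, Cov (σ i) (σ (i + 1)) (f i)) {t : G} (hc : ∀ i, ∀ s ∈ (σ i).F, s * t = t * s)
    (hu : ∃! y : Y, t • y = y) (i : ℕ) : ∀ x ∈ (σ i).A, t • x = (σ i).z x := by
  have hm : ∀ i j, i ≤ j → (σ i).Le (σ j) := fun i j h => by
    induction h with
    | refl => exact .refl _
    | step _ ih => exact ih.trans (h1 _)
  obtain ⟨β, hβ, hβ'⟩ := hu
  have b1 : ∀ j, ∀ s ∈ (σ j).F, s • β = β := fun j s hs =>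
    hβ' _ (show t • s • β = s • β by rw [← mul_smul, ← hc j s hs, mul_smul, hβ])
  have b2 : ∀ j, β ∉ (σ j).A := fun j h => by
    obtain ⟨q, q1, q2, -⟩ := h2 j β ((h1 j).2.1 h)
    exact q2 (b1 _ q q1)
  intro x hx
  have c1 : t • x ≠ x := fun h => b2 i (hβ' x h ▸ hx)
  have c2 : β ≠ t • x := fun h => b2 i (smul_left_cancel t (hβ.trans h) ▸ hx)
  obtain ⟨k, hk⟩ := hf (t • x)
  have c3 : t • x ∈ (σ (k + 1)).A := hk ▸ (h3 k).resolve_right fun h =>
    c2 ((h β (b2 k) (b1 k)).trans hk)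
  have l1 := hm i (i + k + 1) (by omega)
  have l2 := hm (k + 1) (i + k + 1) (by omega)
  obtain ⟨q, q1, q2, q3⟩ := h2 (i + k) _ (l2.2.1 c3)
  rw [← l1.2.2 x hx]
  by_contra c4
  refine q2 ?_
  rw [← mul_smul, hc _ q q1, mul_smul, q3 x (l1.2.1 hx) c1.symm fun h => c4 ?_]
  rw [congrArg (σ (i + k + 1)).z h, (σ (i + k + 1)).zz _ (l2.2.1 c3)]

theorem no_ht [Countable Y] [Infinite Y] (hlf : IsLocallyFinite G)
    (hht : ∀ A : Set Y, A.Finite → ∀ π : Equiv.Perm Y, ∃ g : G, ∀ x ∈ A, g • x = π x)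
    (hs : ∀ P : Subgroup G, IsPGroup 2 P →
      ∃ t : G, (∀ s ∈ P, s * t = t * s) ∧ ∃! y : Y, t • y = y) : False := by
  obtain ⟨f, hf⟩ := exists_surjective_nat Y
  have hstep : ∀ (i : ℕ) (p : St G Y × St G Y), ∃ p' : St G Y × St G Y,
      (p.1.Le p'.1 ∧ Full p'.1 ∧ Cov p.1 p'.1 (f i)) ∧
      (p.2.Le p'.2 ∧ Full p'.2 ∧ Cov p.2 p'.2 (f i)) ∧ Far p'.1 p'.2 (i + 1) := by
    rintro i ⟨σ, σ'⟩
    obtain ⟨σ₁, a1, a2⟩ := σ.cover (f i)
    obtain ⟨σ₁', b1, b2⟩ := σ'.cover (f i)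
    obtain ⟨σ₂, σ₂', a3, b3, x₀, c⟩ := path hlf σ₁ σ₁' i
    obtain ⟨τ, a4, a5⟩ := σ₂.grow hlf hht
    obtain ⟨τ', b4, b5⟩ := σ₂'.grow hlf hht
    exact ⟨(τ, τ'), ⟨(a1.trans a3).trans a4, a5, a2.imp_left fun h => a4.2.1 (a3.2.1 h)⟩,
      ⟨(b1.trans b3).trans b4, b5, b2.imp_left fun h => b4.2.1 (b3.2.1 h)⟩, x₀,
      fun u u' hu hu' => c u u' (fun x hx => (hu x (a4.2.1 hx)).trans (a4.2.2 x hx))
        fun x hx => (hu' x (b4.2.1 hx)).trans (b4.2.2 x hx)⟩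
  choose next h1 h2 h3 using hstep
  let σ₀ : St G Y := ⟨⊥, ∅, id, inferInstance, IsPGroup.of_bot, Set.finite_empty, by simp, by simp,
    by simp, by simp, by simp⟩
  let p : ℕ → St G Y × St G Y := fun n => Nat.rec (σ₀, σ₀) next n
  have key : ∀ σ : ℕ → St G Y, (∀ i, (σ i).Le (σ (i + 1)) ∧ Full (σ (i + 1)) ∧
      Cov (σ i) (σ (i + 1)) (f i)) → ∃ t : G, ∀ i, ∀ x ∈ (σ i).A, t • x = (σ i).z x := by
    intro σ h
    have hmono : Monotone fun n => (σ n).F := monotone_nat_of_le_succ fun n => (h n).1.1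
    obtain ⟨t, t1, t2⟩ := hs (⨆ n, (σ n).F) (by
      rintro ⟨g, hg⟩
      obtain ⟨n, hn⟩ := (Subgroup.mem_iSup_of_directed hmono.directed_le).1 hg
      obtain ⟨k, hk⟩ := (σ n).two ⟨g, hn⟩
      exact ⟨k, Subtype.ext (congrArg Subtype.val hk :)⟩)
    exact ⟨t, force hf (fun i => (h i).1) (fun i => (h i).2.1) (fun i => (h i).2.2)
      (fun i s hs => t1 s (le_iSup (fun n => (σ n).F) i hs)) t2⟩
  obtain ⟨t, ht⟩ := key (fun n => (p n).1) fun i => h1 i (p i)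
  obtain ⟨t', ht'⟩ := key (fun n => (p n).2) fun i => h2 i (p i)
  have := fin_closure hlf (Set.finite_singleton (t' * t))
  obtain ⟨r, hr, hr'⟩ := (isOfFinOrder_of_finite
    (⟨t' * t, Subgroup.subset_closure rfl⟩ : Subgroup.closure {t' * t})).exists_pow_eq_one
  have hr'' : (t' * t) ^ r = 1 := congrArg Subtype.val hr'
  obtain ⟨m, rfl⟩ := Nat.exists_eq_succ_of_ne_zero hr.ne'
  obtain ⟨x₀, hx⟩ := h3 m (p m)
  refine hx (t • ·) (t' • ·) (ht (m + 1)) (ht' (m + 1)) ?_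
  have h4 : ((t' • ·) ∘ (t • ·) : Y → Y) = ((t' * t) • ·) := funext fun x => (mul_smul _ _ _).symm
  rw [h4, smul_iterate, hr'']
  exact one_smul _ _

end Pool.Agent.Lib.MP_a7ce8b_al.HT
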