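import Pool.Agent.Lib.MP_a7ce8b_al.Defs

/-! Finite 2-subgroups together with invariant matchings on finite sets of points. -/

namespace Pool.Agent.Lib.MP_a7ce8b_al.HT

open MulAction

variable {G Y : Type*} [Group G] [MulAction G Y]

theorem fin_closure (h : IsLocallyFinite G) {s : Set G} (hs : s.Finite) :
    Finite (Subgroup.closure s) := by
  have := h hs.toFinset
  rwa [hs.coe_toFinset] at this

/-- A finite 2-subgroup with an invariant perfect matching on a finite invariant set. -/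
structure St (G Y : Type*) [Group G] [MulAction G Y] where
  F : Subgroup G
  A : Set Y
  z : Y → Y
  fin : Finite F
  two : IsPGroup 2 F
  finA : A.Finite
  zA : ∀ x ∈ A, z x ∈ A
  zz : ∀ x ∈ A, z (z x) = x
  zne : ∀ x ∈ A, z x ≠ x
  fA : ∀ f ∈ F, ∀ x ∈ A, f • x ∈ A
  fz : ∀ f ∈ F, ∀ x ∈ A, z (f • x) = f • z x

/-- Extension of states. -/
def St.Le (σ τ : St G Y) : Prop := σ.F ≤ τ.F ∧ σ.A ⊆ τ.A ∧ ∀ x ∈ σ.A, τ.z x = σ.z x

theorem St.Le.refl (σ : St G Y) : σ.Le σ := ⟨le_rfl, subset_rfl, fun _ _ => rfl⟩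

theorem St.Le.trans {σ τ ρ : St G Y} (h : σ.Le τ) (h' : τ.Le ρ) : σ.Le ρ :=
  ⟨h.1.trans h'.1, h.2.1.trans h'.2.1, fun x hx => (h'.2.2 x (h.2.1 hx)).trans (h.2.2 x hx)⟩

theorem St.notMem (σ : St G Y) {f : G} (hf : f ∈ σ.F) {x : Y} (hx : x ∉ σ.A) : f • x ∉ σ.A :=
  fun h => hx (by simpa using σ.fA f⁻¹ (σ.F.inv_mem hf) _ h)

/-- Matching two new points with the same stabiliser. -/
theorem St.pair (σ : St G Y) {x y : Y} (hx : x ∉ σ.A) (hy : y ∉ σ.A) (hxy : x ≠ y)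
    (hs : ∀ f ∈ σ.F, f • x = x ↔ f • y = y) (hn : ∀ f ∈ σ.F, f • x = y → f • y = x) :
    ∃ τ : St G Y, σ.Le τ ∧ τ.F = σ.F ∧ x ∈ τ.A ∧ τ.z x = y := by
  classical
  let R : Y → Y → Prop := fun p q =>
    ∃ f ∈ σ.F, (p = f • x ∧ q = f • y) ∨ (p = f • y ∧ q = f • x)
  have hsymm : ∀ p q, R p q → R q p := by
    rintro p q ⟨f, hf, h | h⟩
    · exact ⟨f, hf, Or.inr ⟨h.2, h.1⟩⟩
    · exact ⟨f, hf, Or.inl ⟨h.2, h.1⟩⟩
  have hmv : ∀ (f g : G) (a b : Y), (g⁻¹ * f) • a = b ↔ f • a = g • b := fun f g a b => by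
    rw [mul_smul, inv_smul_eq_iff]
  have hfun : ∀ p q q', R p q → R p q' → q = q' := by
    rintro p q q' ⟨f, hf, ⟨rfl, rfl⟩ | ⟨rfl, rfl⟩⟩ ⟨g, hg, ⟨h, rfl⟩ | ⟨h, rfl⟩⟩
    · exact (hmv f g y y).1 ((hs _ (σ.F.mul_mem (σ.F.inv_mem hg) hf)).1 ((hmv f g x x).2 h))
    · exact (hmv f g y x).1 (hn _ (σ.F.mul_mem (σ.F.inv_mem hg) hf) ((hmv f g x y).2 h))
    · exact ((hmv g f y x).1
        (hn _ (σ.F.mul_mem (σ.F.inv_mem hf) hg) ((hmv g f x y).2 h.symm))).symm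
    · exact (hmv f g x x).1 ((hs _ (σ.F.mul_mem (σ.F.inv_mem hg) hf)).2 ((hmv f g y y).2 h))
  have heq : ∀ g ∈ σ.F, ∀ p q, R p q → R (g • p) (g • q) := by
    rintro g hg p q ⟨f, hf, ⟨rfl, rfl⟩ | ⟨rfl, rfl⟩⟩
    · exact ⟨g * f, σ.F.mul_mem hg hf, Or.inl ⟨(mul_smul _ _ _).symm, (mul_smul _ _ _).symm⟩⟩
    · exact ⟨g * f, σ.F.mul_mem hg hf, Or.inr ⟨(mul_smul _ _ _).symm, (mul_smul _ _ _).symm⟩⟩
  have hirr : ∀ p q, R p q → q ≠ p := by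
    rintro p q ⟨f, -, ⟨rfl, rfl⟩ | ⟨rfl, rfl⟩⟩ h
    · exact hxy (smul_left_cancel f h).symm
    · exact hxy (smul_left_cancel f h)
  have hout : ∀ p q, R p q → p ∉ σ.A := by
    rintro p q ⟨f, hf, ⟨rfl, -⟩ | ⟨rfl, -⟩⟩
    · exact σ.notMem hf hx
    · exact σ.notMem hf hy
  let w : Y → Y := fun p => if h : ∃ q, R p q then h.choose else σ.z p
  have hw1 : ∀ p q, R p q → w p = q := fun p q h => by
    have h' : ∃ q, R p q := ⟨q, h⟩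
    simp only [w, dif_pos h']
    exact hfun p _ _ h'.choose_spec h
  have hw2 : ∀ p ∈ σ.A, w p = σ.z p := fun p hp => by
    have h' : ¬ ∃ q, R p q := fun ⟨q, h⟩ => hout p q h hp
    simp only [w, dif_neg h']
  have hxR : R x y := ⟨1, σ.F.one_mem, Or.inl ⟨(one_smul _ _).symm, (one_smul _ _).symm⟩⟩
  have := σ.fin
  refine ⟨⟨σ.F, σ.A ∪ {p | ∃ q, R p q}, w, σ.fin, σ.two, σ.finA.union ?_, ?_, ?_, ?_, ?_, ?_⟩,
    ⟨le_rfl, Set.subset_union_left, hw2⟩, rfl, Or.inr ⟨y, hxR⟩, hw1 x y hxR⟩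
  · refine (((Set.toFinite (σ.F : Set G)).image (· • x)).union
      ((Set.toFinite (σ.F : Set G)).image (· • y))).subset ?_
    rintro p ⟨q, f, hf, ⟨h, -⟩ | ⟨h, -⟩⟩
    · exact Or.inl ⟨f, hf, h.symm⟩
    · exact Or.inr ⟨f, hf, h.symm⟩
  · rintro p (hp | ⟨q, h⟩)
    · exact Or.inl (hw2 p hp ▸ σ.zA p hp)
    · exact Or.inr ⟨p, hw1 p q h ▸ hsymm p q h⟩
  · rintro p (hp | ⟨q, h⟩)
    · rw [hw2 p hp, hw2 _ (σ.zA p hp), σ.zz p hp]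
    · rw [hw1 p q h, hw1 q p (hsymm p q h)]
  · rintro p (hp | ⟨q, h⟩)
    · rw [hw2 p hp]; exact σ.zne p hp
    · rw [hw1 p q h]; exact hirr p q h
  · rintro f hf p (hp | ⟨q, h⟩)
    · exact Or.inl (σ.fA f hf p hp)
    · exact Or.inr ⟨_, heq f hf p q h⟩
  · rintro f hf p (hp | ⟨q, h⟩)
    · rw [hw2 p hp, hw2 _ (σ.fA f hf p hp), σ.fz f hf p hp]
    · rw [hw1 p q h, hw1 _ _ (heq f hf p q h)]

theorem exists_sq {H : Type*} [Group H] (N D : Subgroup H) (k : ℕ) :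
    ∀ n ∈ N, n ∉ D → n ^ 2 ^ k ∈ D → ∃ m ∈ N, m ∉ D ∧ m * m ∈ D := by
  induction k with
  | zero => intro n _ h1 h2; exact absurd (by simpa using h2) h1
  | succ k ih =>
    intro n hn h1 h2
    by_cases h3 : n * n ∈ D
    · exact ⟨n, hn, h1, h3⟩
    · exact ih _ (N.mul_mem hn hn) h3 (by rwa [← sq, ← pow_mul, ← pow_succ'])

/-- The point `y` is matched in `τ`, or it is the only free fixed point of `σ`. -/
def Cov (σ τ : St G Y) (y : Y) : Prop :=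
  y ∈ τ.A ∨ ∀ y' ∉ σ.A, (∀ f ∈ σ.F, f • y' = y') → y' = y

theorem St.cover (σ : St G Y) (y : Y) : ∃ τ : St G Y, σ.Le τ ∧ Cov σ τ y := by
  by_cases hy : y ∈ σ.A
  · exact ⟨σ, .refl σ, Or.inl hy⟩
  by_cases hfix : ∀ f ∈ σ.F, f • y = y
  · by_cases h : ∀ y' ∉ σ.A, (∀ f ∈ σ.F, f • y' = y') → y' = y
    · exact ⟨σ, .refl σ, Or.inr h⟩
    push Not at h
    obtain ⟨y', h1, h2, h3⟩ := h
    obtain ⟨τ, a, -, b, -⟩ := σ.pair hy h1 h3.symm (fun f hf => iff_of_true (hfix f hf) (h2 f hf))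
      fun f hf h => absurd ((hfix f hf).symm.trans h).symm h3
    exact ⟨τ, a, Or.inl b⟩
  have := σ.fin
  have : Fact (Nat.Prime 2) := ⟨Nat.prime_two⟩
  have hnil := σ.two.isNilpotent
  have hD : stabilizer σ.F y < ⊤ := lt_top_iff_ne_top.2 fun h => hfix fun f hf => by
    have : (⟨f, hf⟩ : σ.F) ∈ stabilizer σ.F y := h ▸ Subgroup.mem_top _
    exact this
  obtain ⟨n, hn1, hn2⟩ := SetLike.exists_of_lt (Group.normalizerCondition_of_isNilpotent _ hD)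
  obtain ⟨k, hk⟩ := σ.two n
  obtain ⟨m, hm1, hm2, hm3⟩ := exists_sq _ _ k n hn1 hn2 (hk ▸ Subgroup.one_mem _)
  have hm4 : ∀ f ∈ σ.F, f • y = y ↔ f • (m : G) • y = (m : G) • y := fun f hf => by
    have h1 := (Subgroup.mem_normalizer_iff''.1 hm1) ⟨f, hf⟩
    have h2 : ((m⁻¹ * ⟨f, hf⟩ * m : σ.F) ∈ stabilizer σ.F y) ↔
        ((m : G)⁻¹ * f * m) • y = y := Iff.rfl
    rw [h2, mul_smul, mul_smul, inv_smul_eq_iff] at h1
    exact h1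
  have hm5 : (m : G) • (m : G) • y = y := by rw [← mul_smul]; exact hm3
  obtain ⟨τ, a, -, b, -⟩ := σ.pair hy (σ.notMem m.2 hy) (fun h => hm2 h.symm) hm4 fun f hf h => by
    have h1 : ((m : G)⁻¹ * f) • y = y := by rw [mul_smul, h, inv_smul_smul]
    have h2 := (hm4 _ (σ.F.mul_mem (σ.F.inv_mem m.2) hf)).1 h1
    rw [mul_smul, inv_smul_eq_iff, hm5] at h2
    exact h2
  exact ⟨τ, a, Or.inl b⟩

/-- Every map pair extending the two matchings moves some point along a path of length `m`. -/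
def Far (τ τ' : St G Y) (m : ℕ) : Prop :=
  ∃ x₀, ∀ u u' : Y → Y, (∀ x ∈ τ.A, u x = τ.z x) → (∀ x ∈ τ'.A, u' x = τ'.z x) →
    (u' ∘ u)^[m] x₀ ≠ x₀

theorem path [Infinite Y] (hlf : IsLocallyFinite G) (σ σ' : St G Y) (m : ℕ) :
    ∃ τ τ' : St G Y, σ.Le τ ∧ σ'.Le τ' ∧ Far τ τ' (m + 1) := by
  have := σ.fin
  have := σ'.fin
  have hL := fin_closure hlf ((Set.toFinite (σ.F : Set G)).union (Set.toFinite (σ'.F : Set G)))
  set L := Subgroup.closure ((σ.F : Set G) ∪ σ'.F)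
  have h1 : σ.F ≤ L := fun g hg => Subgroup.subset_closure (Or.inl hg)
  have h2 : σ'.F ≤ L := fun g hg => Subgroup.subset_closure (Or.inr hg)
  obtain ⟨D, hD⟩ := Finite.exists_infinite_fiber fun y : Y => {l : L | (l : G) • y = y}
  set X := (fun y : Y => {l : L | (l : G) • y = y}) ⁻¹' {D}
  have hX : X.Infinite := Set.infinite_coe_iff.1 hD
  have hst : ∀ x ∈ X, ∀ y ∈ X, ∀ l ∈ L, l • x = x ↔ l • y = y := fun x hx y hy l hl =>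
    Set.ext_iff.1 ((show {l : L | (l : G) • x = x} = D from hx).trans
      (show {l : L | (l : G) • y = y} = D from hy).symm) ⟨l, hl⟩
  have hnew : ∀ (ρ : St G Y) (B : Set Y) (e : Y), ρ.F ≤ L → B.Finite → e ∈ X → e ∉ ρ.A →
      ∃ p ∈ X, p ∉ B ∧ ∃ τ : St G Y, ρ.Le τ ∧ τ.F = ρ.F ∧ e ∈ τ.A ∧ τ.z e = p := by
    intro ρ B e a1 a2 a3 a4
    obtain ⟨p, b1, b2⟩ := hX.exists_notMem_finite
      ((a2.union ρ.finA).union ((Set.toFinite (L : Set G)).image (· • e)))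
    have b3 : ∀ f ∈ L, f • e ≠ p := fun f hf h => b2 (Or.inr ⟨f, hf, h⟩)
    exact ⟨p, b1, fun h => b2 (Or.inl (Or.inl h)), ρ.pair a4 (fun h => b2 (Or.inl (Or.inr h)))
      (by simpa using b3 1 L.one_mem) (fun f hf => hst e a3 p b1 f (a1 hf))
      fun f hf h => absurd h (b3 f (a1 hf))⟩
  obtain ⟨x₀, c1, c2⟩ := hX.exists_notMem_finite σ.finA
  have key : ∀ m : ℕ, ∃ (τ τ' : St G Y) (e : Y), σ.Le τ ∧ σ'.Le τ' ∧ τ.F ≤ L ∧ τ'.F ≤ L ∧ e ∈ X ∧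
      e ∉ τ.A ∧ (x₀ ∈ τ.A ∨ m = 0 ∧ e = x₀) ∧ ∀ u u' : Y → Y, (∀ x ∈ τ.A, u x = τ.z x) →
        (∀ x ∈ τ'.A, u' x = τ'.z x) → (u' ∘ u)^[m] x₀ = e := by
    intro m
    induction m with
    | zero => exact ⟨σ, σ', x₀, .refl _, .refl _, h1, h2, c1, c2, Or.inr ⟨rfl, rfl⟩,
        fun _ _ _ _ => rfl⟩
    | succ m ih =>
      obtain ⟨τ, τ', e, d1, d2, d3, d4, d5, d6, d7, d8⟩ := ih
      obtain ⟨p, p1, p2, ρ, p3, p4, p5, p6⟩ := hnew τ τ'.A e d3 τ'.finA d5 d6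
      obtain ⟨q, q1, q2, ρ', q3, q4, q5, q6⟩ := hnew τ' ρ.A p d4 ρ.finA p1 p2
      refine ⟨ρ, ρ', q, d1.trans p3, d2.trans q3, p4 ▸ d3, q4 ▸ d4, q1, q2,
        Or.inl (d7.elim (fun h => p3.2.1 h) fun h => h.2 ▸ p5), fun u u' hu hu' => ?_⟩
      rw [Function.iterate_succ_apply', d8 u u'
        (fun x hx => (hu x (p3.2.1 hx)).trans (p3.2.2 x hx))
        (fun x hx => (hu' x (q3.2.1 hx)).trans (q3.2.2 x hx)), Function.comp_apply, hu e p5, p6,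
        hu' p q5, q6]
  obtain ⟨τ, τ', e, d1, d2, -, -, -, d6, d7, d8⟩ := key (m + 1)
  refine ⟨τ, τ', d1, d2, x₀, fun u u' hu hu' h => d6 ?_⟩
  rw [← d8 u u' hu hu', h]
  exact d7.resolve_right fun h => Nat.succ_ne_zero m h.1

end Pool.Agent.Lib.MP_a7ce8b_al.HT
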