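import Pool.Agent.Lib.MP_a7ce8b_al.HT.Main

/-! Product actions with a highly transitive component of countable degree. -/

namespace Pool.Agent.Lib.MP_a7ce8b_al.HT

open MulAction Equiv

theorem IsLocallyFinite.sub {G : Type*} [Group G] (h : IsLocallyFinite G) (H : Subgroup G) :
    IsLocallyFinite H := fun s => by
  have := fin_closure h (s.finite_toSet.image H.subtype)
  rw [← MonoidHom.map_closure] at this
  exact Finite.of_injective _ (Subgroup.equivMapOfInjective _ _ H.subtype_injective).injective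

variable {G Ω ι Y : Type*} [Group G] [MulAction G Ω] (e : Ω ≃ (ι → Y)) (i : ι)

/-- The elements that act on the coordinate `i`. -/
def coord : Subgroup G where
  carrier := {g | ∃ a : Perm Y, ∀ ω, e (g • ω) i = a (e ω i)}
  one_mem' := ⟨1, fun ω => by simp⟩
  mul_mem' := by
    rintro g h ⟨a, ha⟩ ⟨b, hb⟩
    exact ⟨a * b, fun ω => by rw [mul_smul, ha, hb, Perm.mul_apply]⟩
  inv_mem' := by
    rintro g ⟨a, ha⟩
    exact ⟨a⁻¹, fun ω => by rw [Perm.eq_inv_iff_eq, ← ha, smul_inv_smul]⟩

/-- The action on the coordinate `i`. -/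
@[reducible] def coordAct : MulAction (coord (G := G) e i) Y where
  smul g y := e ((g : G) • e.symm fun _ => y) i
  one_smul y := by
    change e ((1 : G) • e.symm fun _ => y) i = y
    simp
  mul_smul g h y := by
    obtain ⟨a, ha⟩ := g.2
    change e (((g : G) * h) • e.symm fun _ => y) i =
      e ((g : G) • e.symm fun _ => e ((h : G) • e.symm fun _ => y) i) i
    rw [mul_smul, ha, ha, e.apply_symm_apply]

theorem one_point [Nontrivial Y] {t : G} (h2 : t * t = 1) (hu : ∃! ω : Ω, t • ω = ω)
    {σ : Perm ι} {a : ι → Perm Y} (h : ∀ ω j, e (t • ω) (σ j) = a j (e ω j)) :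
    σ i = i ∧ ∃! y, a i y = y := by
  classical
  obtain ⟨ω, hω, hω'⟩ := hu
  have h0 : ∀ j, e ω (σ j) = a j (e ω j) := fun j => by rw [← h, hω]
  have h1 : ∀ (x : ι → Y) j, x (σ (σ j)) = a (σ j) (a j (x j)) := fun x j => by
    have := h (t • e.symm x) (σ j)
    rwa [← mul_smul, h2, one_smul, h, e.apply_symm_apply] at this
  have h3 : ∀ x : ι → Y, (∀ j, x (σ j) = a j (x j)) → x = e ω := fun x hx => by
    rw [← hω' (e.symm x) (e.injective (funext fun j => by
      obtain ⟨k, rfl⟩ := σ.surjective j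
      rw [h, e.apply_symm_apply, hx])), e.apply_symm_apply]
  have h4 : ∀ y, (σ i = i → a i y = y) → y = e ω i := fun y hy => by
    have hσ : σ (σ i) = i := by
      by_contra hne
      obtain ⟨y', hy'⟩ := exists_ne (e ω (σ (σ i)))
      have := h1 (Function.update (e ω) (σ (σ i)) y') i
      rw [Function.update_self, Function.update_of_ne (Ne.symm hne), ← h1] at this
      exact hy' this
    have := h3 (fun j => if j = i then y else if j = σ i then a i y else e ω j) fun j => by
      by_cases c1 : j = i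
      · subst c1
        by_cases c2 : σ j = j
        · simp [c2, hy c2]
        · simp [c2]
      by_cases c2 : j = σ i
      · subst c2
        have := h1 (fun _ => y) i
        simp only [hσ, c1, if_true, if_false]
        exact this
      have c3 : σ j ≠ i := fun c => c2 (σ.injective (c.trans hσ.symm))
      have c4 : σ j ≠ σ i := fun c => c1 (σ.injective c)
      simp only [c1, c2, c3, c4, if_false, h0]
    simpa using congrFun this i
  have h5 : σ i = i := by
    by_contra hne
    obtain ⟨y, hy⟩ := exists_ne (e ω i)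
    exact hy (h4 y fun c => absurd c hne)
  exact ⟨h5, e ω i, by have := h0 i; rw [h5] at this; exact this.symm, fun y hy => h4 y fun _ => hy⟩

theorem not_star [Countable Y] [Infinite Y] (hlf : IsLocallyFinite G)
    (hwr : ∀ g : G, ∃ (σ : Perm ι) (a : ι → Perm Y), ∀ ω j, e (g • ω) (σ j) = a j (e ω j))
    (hht : ∀ (n : ℕ) (u v : Fin n ↪ Y), ∃ (g : G) (a : Perm Y),
      (∀ ω, e (g • ω) i = a (e ω i)) ∧ ∀ k, a (u k) = v k) : ¬ Star G Ω := by
  intro hs
  let _ := coordAct (G := G) e i
  have hsm : ∀ (g : coord (G := G) e i) (a : Perm Y), (∀ ω, e ((g : G) • ω) i = a (e ω i)) →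
      ∀ y : Y, g • y = a y := fun g a ha y => by
    change e ((g : G) • e.symm fun _ => y) i = a y
    rw [ha, e.apply_symm_apply]
  refine no_ht (G := coord (G := G) e i) (Y := Y) (IsLocallyFinite.sub hlf _)
    (fun A hA π => ?_) fun P hP => ?_
  · let u : Fin hA.toFinset.card ↪ Y :=
      hA.toFinset.equivFin.symm.toEmbedding.trans (Function.Embedding.subtype _)
    obtain ⟨g, a, h1, h2⟩ := hht _ u (u.trans π.toEmbedding)
    refine ⟨⟨g, a, h1⟩, fun x hx => ?_⟩
    have := h2 (hA.toFinset.equivFin ⟨x, hA.mem_toFinset.2 hx⟩)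
    rw [hsm _ a h1]
    simpa [u] using this
  · obtain ⟨S, hS⟩ := (hP.map (coord (G := G) e i).subtype).exists_le_sylow
    obtain ⟨t, -, t1, t2, t3⟩ := hs S
    obtain ⟨σ, a, h⟩ := hwr t
    obtain ⟨h1, h2⟩ := one_point e i (by rw [← sq, ← t2, pow_orderOf_eq_one]) t3 h
    have h3 : ∀ ω, e (t • ω) i = a i (e ω i) := fun ω => by rw [← h, h1]
    refine ⟨⟨t, a i, h3⟩, fun s hs => Subtype.ext (t1 _ (hS ⟨s, hs, rfl⟩)), ?_⟩
    simpa only [hsm ⟨t, a i, h3⟩ (a i) h3] using h2

end Pool.Agent.Lib.MP_a7ce8b_al.HT
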