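import Pool.Agent.Lib.MP_a7ce8b_al.HT.Prod

/-! Product actions on sets of functions that are closed under patching along agreement sets. -/

namespace Pool.Agent.Lib.MP_a7ce8b_al.HT

open MulAction Equiv

variable {G Ω ι Y : Type*} [Group G] [MulAction G Ω] (e : Ω ↪ (ι → Y)) (i : ι)

/-- The elements that act on the coordinate `i`. -/
def rcoord : Subgroup G where
  carrier := {g | ∃ a : Perm Y, ∀ ω, e (g • ω) i = a (e ω i)}
  one_mem' := ⟨1, fun ω => by simp⟩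
  mul_mem' := by
    rintro g h ⟨a, ha⟩ ⟨b, hb⟩
    exact ⟨a * b, fun ω => by rw [mul_smul, ha, hb, Perm.mul_apply]⟩
  inv_mem' := by
    rintro g ⟨a, ha⟩
    exact ⟨a⁻¹, fun ω => by rw [Perm.eq_inv_iff_eq, ← ha, smul_inv_smul]⟩

/-- The action on the coordinate `i`. -/
@[reducible] def rcoordAct (s : Y → Ω) (hs : ∀ y, e (s y) i = y) :
    MulAction (rcoord (G := G) e i) Y where
  smul g y := e ((g : G) • s y) i
  one_smul y := by
    change e ((1 : G) • s y) i = y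
    rw [one_smul, hs]
  mul_smul g h y := by
    obtain ⟨a, ha⟩ := g.2
    change e (((g : G) * h) • s y) i = e ((g : G) • s (e ((h : G) • s y) i)) i
    rw [mul_smul, ha, ha, hs]

theorem rone_point
    (hp : ∀ a b c d : Ω, ∃ x, ∀ j, (e a j = e b j → e x j = e c j) ∧ (e a j ≠ e b j → e x j = e d j))
    (hsep : ∀ j, j ≠ i → ∃ a b : Ω, e a j = e b j ∧ e a i ≠ e b i)
    (hsur : ∀ y, ∃ x, e x i = y) {t : G} (h2 : t * t = 1) (hu : ∃! ω : Ω, t • ω = ω)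
    {σ : Perm ι} {a : ι → Perm Y} (h : ∀ ω j, e (t • ω) (σ j) = a j (e ω j)) :
    σ i = i ∧ ∃! y, a i y = y := by
  obtain ⟨ω, hω, hω'⟩ := hu
  have h0 : ∀ j, e ω (σ j) = a j (e ω j) := fun j => by rw [← h, hω]
  have h1 : ∀ x j, e x (σ j) = a j (e (t • x) j) := fun x j => by
    rw [← h, ← mul_smul, h2, one_smul]
  have h3 : ∀ x, (∀ j, e x (σ j) = a j (e x j)) → x = ω := fun x hx =>
    hω' x (e.injective (funext fun j => by
      obtain ⟨k, rfl⟩ := σ.surjective j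
      rw [h, hx]))
  have h5 : σ i = i := by
    by_contra hne
    obtain ⟨k, hk⟩ := σ.surjective i
    obtain ⟨p, q, p1, p2⟩ := hsep k fun c => hne (c ▸ hk)
    obtain ⟨c, hc⟩ : ∃ c, e c i ≠ e ω i := by
      by_cases c : e p i = e ω i
      exacts [⟨q, fun c' => p2 (c.trans c'.symm)⟩, ⟨p, c⟩]
    obtain ⟨w, hw⟩ := hp p q ω c
    obtain ⟨z, hz⟩ := hp w ω (t • w) ω
    obtain ⟨x, hx⟩ := hp (t • w) ω w z
    have e1 : ∀ j, e (t • w) (σ j) = e ω (σ j) ↔ e w j = e ω j := fun j => by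
      rw [h, h0, (a j).injective.eq_iff]
    have e2 : ∀ j, e w (σ j) = e ω (σ j) ↔ e (t • w) j = e ω j := fun j => by
      rw [h1, h0, (a j).injective.eq_iff]
    have e3 := h3 x fun j => by
      by_cases P : e (t • w) j = e ω j <;> by_cases Q : e w j = e ω j
      · rw [(hx j).1 P, (hx _).1 ((e1 j).2 Q), (e2 j).2 P, Q, h0]
      · rw [(hx j).1 P, (hx _).2 (mt (e1 j).1 Q), (hz _).1 ((e2 j).2 P), h]
      · rw [(hx j).2 P, (hz j).1 Q, (hx _).1 ((e1 j).2 Q), h1]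
      · rw [(hx j).2 P, (hz j).2 Q, (hx _).2 (mt (e1 j).1 Q), (hz _).2 (mt (e2 j).1 P), h0]
    have e4 := (hx i).1 (hk ▸ (e1 k).2 ((hw k).1 p1))
    rw [e3, (hw i).2 p2] at e4
    exact hc e4.symm
  refine ⟨h5, e ω i, by have := h0 i; rw [h5] at this; exact this.symm, fun y hy => ?_⟩
  obtain ⟨w, rfl⟩ := hsur y
  obtain ⟨x, hx⟩ := hp (t • w) w w ω
  have e1 : ∀ j, e (t • w) (σ j) = e w (σ j) ↔ e (t • w) j = e w j := fun j => by
    rw [h, h1, (a j).injective.eq_iff, eq_comm]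
  have e3 := h3 x fun j => by
    by_cases P : e (t • w) j = e w j
    · rw [(hx j).1 P, (hx _).1 ((e1 j).2 P), h1, P]
    · rw [(hx j).2 P, (hx _).2 (mt (e1 j).1 P), h0]
  have e4 := h w i
  rw [h5] at e4
  rw [← (hx i).1 (e4.trans hy), e3]

theorem rnot_star [Countable Y] [Infinite Y]
    (hp : ∀ a b c d : Ω, ∃ x, ∀ j, (e a j = e b j → e x j = e c j) ∧ (e a j ≠ e b j → e x j = e d j))
    (hsep : ∀ j, j ≠ i → ∃ a b : Ω, e a j = e b j ∧ e a i ≠ e b i) (hlf : IsLocallyFinite G)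
    (hwr : ∀ g : G, ∃ (σ : Perm ι) (a : ι → Perm Y), ∀ ω j, e (g • ω) (σ j) = a j (e ω j))
    (hht : ∀ (n : ℕ) (u v : Fin n ↪ Y), ∃ (g : G) (a : Perm Y),
      (∀ ω, e (g • ω) i = a (e ω i)) ∧ ∀ k, a (u k) = v k) : ¬ Star G Ω := by
  intro hs
  obtain ⟨-, -, -, -, ω₀, -⟩ := hs (Classical.choice Sylow.nonempty)
  have hsur : ∀ y, ∃ x, e x i = y := fun y => by
    obtain ⟨g, a, h1, h2⟩ := hht 1 ⟨fun _ => e ω₀ i, fun _ _ _ => Subsingleton.elim _ _⟩
      ⟨fun _ => y, fun _ _ _ => Subsingleton.elim _ _⟩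
    exact ⟨g • ω₀, (h1 ω₀).trans (h2 0)⟩
  choose s s1 using id hsur
  let _ := rcoordAct (G := G) e i s s1
  have hsm : ∀ (g : rcoord (G := G) e i) (a : Perm Y), (∀ ω, e ((g : G) • ω) i = a (e ω i)) →
      ∀ y : Y, g • y = a y := fun g a ha y => by
    change e ((g : G) • s y) i = a y
    rw [ha, s1]
  refine no_ht (G := rcoord (G := G) e i) (Y := Y) (IsLocallyFinite.sub hlf _)
    (fun A hA π => ?_) fun P hP => ?_
  · let u : Fin hA.toFinset.card ↪ Y :=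
      hA.toFinset.equivFin.symm.toEmbedding.trans (Function.Embedding.subtype _)
    obtain ⟨g, a, h1, h2⟩ := hht _ u (u.trans π.toEmbedding)
    refine ⟨⟨g, a, h1⟩, fun x hx => ?_⟩
    have := h2 (hA.toFinset.equivFin ⟨x, hA.mem_toFinset.2 hx⟩)
    rw [hsm _ a h1]
    simpa [u] using this
  · obtain ⟨S, hS⟩ := (hP.map (rcoord (G := G) e i).subtype).exists_le_sylow
    obtain ⟨t, -, t1, t2, t3⟩ := hs S
    obtain ⟨σ, a, h⟩ := hwr t
    obtain ⟨h1, h2⟩ := rone_point e i hp hsep hsur (by rw [← sq, ← t2, pow_orderOf_eq_one]) t3 h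
    have h3 : ∀ ω, e (t • ω) i = a i (e ω i) := fun ω => by rw [← h, h1]
    refine ⟨⟨t, a i, h3⟩, fun s hs => Subtype.ext (t1 _ (hS ⟨s, hs, rfl⟩)), ?_⟩
    simpa only [hsm ⟨t, a i, h3⟩ (a i) h3] using h2

end Pool.Agent.Lib.MP_a7ce8b_al.HT
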